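import Mathlib
import Pool.Agent.H710R2.DP.Defs
import Pool.Agent.H710R2.DP.Defs2
import Pool.Agent.H710R2.DP.Tasks
import Pool.Agent.H710R2.DP.VTasks

open scoped ComplexOrder InnerProductSpace ComplexConjugate
open Finset

noncomputable section

namespace H710R2.DP

open H759R2.Kad

namespace V372

variable {H : Type} [NormedAddCommGroup H] [InnerProductSpace ℂ H] [CompleteSpace H]

theorem pi_norm (W : H →L[ℂ] H) (h : W * star W * W = W) : ‖W‖ ≤ 1 := by
  have h1 : ‖star W * W‖ = ‖W‖ * ‖W‖ := CStarRing.norm_star_mul_self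
  have h2 : (star W * W) * (star W * W) = star W * W := by
    calc (star W * W) * (star W * W) = star W * (W * star W * W) := by
          simp only [mul_assoc]
      _ = star W * W := by rw [h]
  have h3 : ‖star W * W‖ ≤ 1 := by
    have e1 : star (star W * W) = star W * W := by rw [star_mul, star_star]
    have e2 : ‖star (star W * W) * (star W * W)‖ = ‖star W * W‖ * ‖star W * W‖ :=
      CStarRing.norm_star_mul_self
    rw [e1, h2] at e2
    by_contra hcon
    push Not at hcon
    have h0 : ‖star W * W‖ ≠ 0 := by linarith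
    have : (1 : ℝ) = ‖star W * W‖ := by
      have : ‖star W * W‖ * 1 = ‖star W * W‖ * ‖star W * W‖ := by rw [mul_one]; exact e2
      exact mul_left_cancel₀ h0 this
    linarith
  rw [h1] at h3
  nlinarith [norm_nonneg W]

variable {T : Type} (w : T → (H →L[ℂ] H))

theorem inner_zero (h : ∀ s t, s ≠ t → star (w s) * w t = 0 ∧ w s * star (w t) = 0)
    {s t : T} (hst : s ≠ t) (x y : H) : ⟪w s x, w t y⟫_ℂ = 0 := by
  rw [← ContinuousLinearMap.adjoint_inner_right]
  have h1 : (star (w s) * w t) y = 0 := by rw [(h s t hst).1]; rfl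
  have h2 : (ContinuousLinearMap.adjoint (w s)) ((w t) y) = 0 := h1
  rw [h2, inner_zero_right]

theorem fin_pi (hpi : ∀ t, IsPI (w t))
    (h : ∀ s t, s ≠ t → star (w s) * w t = 0 ∧ w s * star (w t) = 0) (F : Finset T) :
    (∑ t ∈ F, w t) * star (∑ t ∈ F, w t) * (∑ t ∈ F, w t) = ∑ t ∈ F, w t := by
  classical
  have h1 : (∑ t ∈ F, w t) * star (∑ t ∈ F, w t) = ∑ t ∈ F, w t * star (w t) := by
    rw [star_sum, Finset.sum_mul_sum]
    refine Finset.sum_congr rfl (fun s hs => ?_)
    rw [Finset.sum_eq_single s]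
    · intro t _ hne
      exact (h s t (Ne.symm hne)).2
    · intro hn
      exact absurd hs hn
  rw [h1, Finset.sum_mul_sum]
  refine Finset.sum_congr rfl (fun s hs => ?_)
  rw [Finset.sum_eq_single s]
  · exact hpi s
  · intro t _ hne
    rw [mul_assoc, (h s t (Ne.symm hne)).1, mul_zero]
  · intro hn
    exact absurd hs hn

theorem fin_norm (hpi : ∀ t, IsPI (w t))
    (h : ∀ s t, s ≠ t → star (w s) * w t = 0 ∧ w s * star (w t) = 0) (F : Finset T) (x : H) :
    ‖∑ t ∈ F, w t x‖ ≤ ‖x‖ := by
  have h1 := pi_norm _ (fin_pi w hpi h F)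
  have h2 : ∑ t ∈ F, w t x = (∑ t ∈ F, w t) x := by
    rw [_root_.sum_apply]
  rw [h2]
  calc ‖(∑ t ∈ F, w t) x‖ ≤ ‖∑ t ∈ F, w t‖ * ‖x‖ := ContinuousLinearMap.le_opNorm _ _
    _ ≤ 1 * ‖x‖ := mul_le_mul_of_nonneg_right h1 (norm_nonneg _)
    _ = ‖x‖ := one_mul _

theorem orth (h : ∀ s t, s ≠ t → star (w s) * w t = 0 ∧ w s * star (w t) = 0) :
    OrthogonalFamily ℂ (fun t => (LinearMap.range (w t : H →ₗ[ℂ] H)))
      (fun t => (LinearMap.range (w t : H →ₗ[ℂ] H)).subtypeₗᵢ) := by
  rintro s t hst ⟨_, x, rfl⟩ ⟨_, y, rfl⟩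
  exact inner_zero w h hst x y

theorem summ (hpi : ∀ t, IsPI (w t))
    (h : ∀ s t, s ≠ t → star (w s) * w t = 0 ∧ w s * star (w t) = 0) (x : H) :
    Summable (fun t => w t x) := by
  classical
  have h1 := (orth w h).summable_iff_norm_sq_summable
    (fun t => (⟨w t x, ⟨x, rfl⟩⟩ : LinearMap.range (w t : H →ₗ[ℂ] H)))
  refine h1.2 ?_
  refine summable_of_sum_le (c := ‖x‖ ^ 2) (fun t => by positivity) (fun F => ?_)
  have h2 := (orth w h).norm_sum
    (fun t => (⟨w t x, ⟨x, rfl⟩⟩ : LinearMap.range (w t : H →ₗ[ℂ] H))) F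
  rw [← h2]
  exact pow_le_pow_left₀ (norm_nonneg _) (fin_norm w hpi h F x) 2

/-- the strong sum -/
def WW (hpi : ∀ t, IsPI (w t))
    (h : ∀ s t, s ≠ t → star (w s) * w t = 0 ∧ w s * star (w t) = 0) : H →L[ℂ] H :=
  LinearMap.mkContinuous
    { toFun := fun x => ∑' t, w t x
      map_add' := fun x y => by
        rw [← (summ w hpi h x).tsum_add (summ w hpi h y)]
        exact tsum_congr (fun t => map_add _ _ _)
      map_smul' := fun c x => by
        rw [RingHom.id_apply, ← (summ w hpi h x).tsum_const_smul c]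
        exact tsum_congr (fun t => map_smul _ _ _) } 1 (fun x => by
    rw [one_mul]
    have hs := (summ w hpi h x).hasSum
    exact le_of_tendsto' hs.norm (fun F => fin_norm w hpi h F x))

theorem WW_apply (hpi : ∀ t, IsPI (w t))
    (h : ∀ s t, s ≠ t → star (w s) * w t = 0 ∧ w s * star (w t) = 0) (x : H) :
    WW w hpi h x = ∑' t, w t x := rfl

theorem map_WW (hpi : ∀ t, IsPI (w t))
    (h : ∀ s t, s ≠ t → star (w s) * w t = 0 ∧ w s * star (w t) = 0) (a : H →L[ℂ] H) (x : H) :
    a (WW w hpi h x) = ∑' t, a (w t x) := by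
  rw [WW_apply]
  exact a.map_tsum (summ w hpi h x)

end V372

open V372

theorem dp_Vsum : V_sum := by
  intro H _ _ _ M T w hw h
  have hpi : ∀ t, IsPI (w t) := fun t => (hw t).2
  refine ⟨WW w hpi h, ?_, ?_, ?_, ?_⟩
  · rw [← VonNeumannAlgebra.commutant_commutant M, VonNeumannAlgebra.mem_commutant_iff]
    intro g hg
    rw [VonNeumannAlgebra.mem_commutant_iff] at hg
    ext x
    show g (WW w hpi h x) = WW w hpi h (g x)
    rw [map_WW, WW_apply]
    refine tsum_congr (fun t => ?_)
    have h1 : (w t * g) x = (g * w t) x := by rw [hg _ (hw t).1]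
    exact h1.symm
  · intro t
    ext x
    show WW w hpi h ((star (w t) * w t) x) = w t x
    rw [WW_apply, tsum_eq_single t]
    · have h1 : (w t * star (w t) * w t) x = w t x := by rw [hpi t]
      exact h1
    · intro s hs
      have h1 : (w s * star (w t)) (w t x) = 0 := by rw [(h s t hs).2]; rfl
      exact h1
  · intro t
    have h1 : (w t * star (w t)) * WW w hpi h = w t := by
      ext x
      show (w t * star (w t)) (WW w hpi h x) = w t x
      rw [map_WW, tsum_eq_single t]
      · have h1 : (w t * star (w t) * w t) x = w t x := by rw [hpi t]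
        exact h1
      · intro s hs
        have h1 : (star (w t) * w s) x = 0 := by rw [(h t s (Ne.symm hs)).1]; rfl
        show w t ((star (w t) * w s) x) = 0
        rw [h1, map_zero]
    have h2 := congrArg star h1
    rw [star_mul, star_mul, star_star] at h2
    exact h2
  · intro a b hab
    ext x
    show a (WW w hpi h (b x)) = 0
    rw [map_WW]
    have h1 : ∀ t, a (w t (b x)) = 0 := by
      intro t
      have h2 : (a * w t * b) x = 0 := by rw [hab t]; rfl
      exact h2
    simp_rw [h1]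
    exact tsum_zero

end H710R2.DP
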