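import Mathlib
import Pool.Agent.H710R2.DP.Defs
import Pool.Agent.H710R2.DP.Defs2
import Pool.Agent.H710R2.DP.Tasks

open scoped ComplexOrder InnerProductSpace ComplexConjugate
open Finset

noncomputable section

namespace H710R2.DP

open H759R2.Kad

namespace ZZ2

variable {H : Type} [NormedAddCommGroup H] [InnerProductSpace ℂ H] [CompleteSpace H]

/-- span of the central projections -/
def SP (M : VonNeumannAlgebra H) : Submodule ℂ (H →L[ℂ] H) := Submodule.span ℂ {p | IsCP M p}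

theorem cen_sub {M : VonNeumannAlgebra H} {x y : H →L[ℂ] H} (hx : IsCen M x) (hy : IsCen M y) :
    IsCen M (x - y) :=
  ⟨sub_mem hx.1 hy.1, fun a ha => by rw [sub_mul, mul_sub, hx.2 a ha, hy.2 a ha]⟩

theorem cen_add {M : VonNeumannAlgebra H} {x y : H →L[ℂ] H} (hx : IsCen M x) (hy : IsCen M y) :
    IsCen M (x + y) :=
  ⟨add_mem hx.1 hy.1, fun a ha => by rw [add_mul, mul_add, hx.2 a ha, hy.2 a ha]⟩

theorem cen_smul {M : VonNeumannAlgebra H} {x : H →L[ℂ] H} (c : ℂ) (hx : IsCen M x) :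
    IsCen M (c • x) :=
  ⟨M.toStarSubalgebra.smul_mem hx.1 c, fun a ha => by
    rw [smul_mul_assoc, mul_smul_comm, hx.2 a ha]⟩

theorem cen_star {M : VonNeumannAlgebra H} {x : H →L[ℂ] H} (hx : IsCen M x) : IsCen M (star x) := by
  refine ⟨star_mem hx.1, fun a ha => ?_⟩
  have h := hx.2 (star a) (star_mem ha)
  have h2 := congrArg star h
  rw [star_mul, star_mul, star_star] at h2
  exact h2.symm

theorem cen_one (M : VonNeumannAlgebra H) : IsCen M (1 : H →L[ℂ] H) :=
  ⟨one_mem M, fun a _ => by rw [one_mul, mul_one]⟩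

theorem cp_one (M : VonNeumannAlgebra H) : IsCP M (1 : H →L[ℂ] H) :=
  ⟨⟨star_one _, one_mul _⟩, cen_one M⟩

theorem rsmul (r : ℝ) (e : H →L[ℂ] H) : r • e = (r : ℂ) • e := by
  ext v
  simp

theorem algMap (r : ℝ) : algebraMap ℝ (H →L[ℂ] H) r = (r : ℂ) • (1 : H →L[ℂ] H) := by
  rw [Algebra.algebraMap_eq_smul_one, rsmul]

theorem pos (h : Z_bin) (M : VonNeumannAlgebra H) : ∀ (k : ℕ) (x : H →L[ℂ] H) (r : ℝ),
    IsCen M x → 0 ≤ x → x ≤ algebraMap ℝ (H →L[ℂ] H) r →
    ∃ y ∈ SP M, 0 ≤ x - y ∧ x - y ≤ algebraMap ℝ (H →L[ℂ] H) (r / 2 ^ k) := by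
  intro k
  induction k with
  | zero =>
    intro x r _ h0 hr
    refine ⟨0, Submodule.zero_mem _, ?_, ?_⟩
    · rw [sub_zero]; exact h0
    · rw [sub_zero, pow_zero, div_one]; exact hr
  | succ k ih =>
    intro x r hx h0 hr
    obtain ⟨e, heM, hePr, hec, h1, h2⟩ := h H M x r hx.1 h0 hr
    have hcp : IsCP M e := ⟨hePr, heM, fun a ha => (hec a (hx.2 a ha).symm).symm⟩
    have hx' : IsCen M (x - (r / 2) • e) := by
      rw [rsmul]
      exact cen_sub hx (cen_smul _ hcp.2)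
    obtain ⟨y, hy, h3, h4⟩ := ih _ (r / 2) hx' h1 h2
    refine ⟨(r / 2) • e + y, ?_, ?_, ?_⟩
    · rw [rsmul]
      exact Submodule.add_mem _ (Submodule.smul_mem _ _ (Submodule.subset_span hcp)) hy
    · rw [← sub_sub]; exact h3
    · rw [← sub_sub]
      have e1 : r / 2 ^ (k + 1) = r / 2 / 2 ^ k := by
        rw [pow_succ, div_div, mul_comm]
      rw [e1]
      exact h4

theorem pos_closure (h : Z_bin) (M : VonNeumannAlgebra H) (x : H →L[ℂ] H) (hx : IsCen M x)
    (h0 : 0 ≤ x) : x ∈ (SP M).topologicalClosure := by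
  have hr := IsSelfAdjoint.le_algebraMap_norm_self (a := x) (IsSelfAdjoint.of_nonneg h0)
  rw [← SetLike.mem_coe, Submodule.topologicalClosure_coe, Metric.mem_closure_iff]
  intro ε hε
  obtain ⟨k, hk⟩ : ∃ k : ℕ, ‖x‖ / 2 ^ k < ε := by
    obtain ⟨k, hk⟩ := pow_unbounded_of_one_lt (‖x‖ / ε) (by norm_num : (1 : ℝ) < 2)
    refine ⟨k, ?_⟩
    rw [div_lt_iff₀ hε] at hk
    rw [div_lt_iff₀ (by positivity), mul_comm]
    exact hk
  obtain ⟨y, hy, h1, h2⟩ := pos h M k x ‖x‖ hx h0 hr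
  refine ⟨y, hy, ?_⟩
  rw [dist_eq_norm]
  exact lt_of_le_of_lt
    ((CStarAlgebra.norm_le_iff_le_algebraMap _ (by positivity) h1).2 h2) hk

theorem sa_closure (h : Z_bin) (M : VonNeumannAlgebra H) (x : H →L[ℂ] H) (hx : IsCen M x)
    (hsa : IsSelfAdjoint x) : x ∈ (SP M).topologicalClosure := by
  have h1 := hsa.neg_algebraMap_norm_le_self
  have h2 : 0 ≤ x + algebraMap ℝ (H →L[ℂ] H) ‖x‖ := by
    have := add_le_add_left h1 (algebraMap ℝ (H →L[ℂ] H) ‖x‖)
    simpa using this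
  have h3 : IsCen M (x + algebraMap ℝ (H →L[ℂ] H) ‖x‖) := by
    rw [algMap]
    exact cen_add hx (cen_smul _ (cen_one M))
  have h4 := pos_closure h M _ h3 h2
  have h5 : algebraMap ℝ (H →L[ℂ] H) ‖x‖ ∈ (SP M).topologicalClosure := by
    rw [algMap]
    exact Submodule.le_topologicalClosure _
      (Submodule.smul_mem _ _ (Submodule.subset_span (cp_one M)))
  have h6 := Submodule.sub_mem _ h4 h5
  rwa [add_sub_cancel_right] at h6

theorem cen_closure (h : Z_bin) (M : VonNeumannAlgebra H) (x : H →L[ℂ] H) (hx : IsCen M x) :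
    x ∈ (SP M).topologicalClosure := by
  have hre : IsCen M ((realPart x : H →L[ℂ] H)) := by
    rw [realPart_apply_coe, rsmul]
    exact cen_smul _ (cen_add hx (cen_star hx))
  have him : IsCen M ((imaginaryPart x : H →L[ℂ] H)) := by
    rw [imaginaryPart_apply_coe, rsmul]
    exact cen_smul _ (cen_smul _ (cen_sub hx (cen_star hx)))
  have h1 := sa_closure h M _ hre (realPart x).2
  have h2 := sa_closure h M _ him (imaginaryPart x).2
  have h3 := Submodule.add_mem _ h1 (Submodule.smul_mem _ Complex.I h2)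
  rwa [realPart_add_I_smul_imaginaryPart] at h3

end ZZ2

open ZZ2

theorem dp_span (h : Z_bin) : Z_span := by
  intro H _ _ _ M x hx ε hε
  have h1 := cen_closure h M x hx
  rw [← SetLike.mem_coe, Submodule.topologicalClosure_coe, Metric.mem_closure_iff] at h1
  obtain ⟨y, hy, hd⟩ := h1 ε hε
  obtain ⟨n, c, g, rfl⟩ := Submodule.mem_span_set'.1 hy
  refine ⟨n, c, fun k => (g k : H →L[ℂ] H), fun k => (g k).2, ?_⟩
  rw [dist_eq_norm] at hd
  exact hd.le

end H710R2.DP
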